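import Pool.Agent.Results.MP_00e098_gt.NoUniversalTrInd
import Pool.Agent.Y739.UT.Core
import Pool.Agent.Y739.UT.Univ

/-!
# Universal spaces for `trInd ≤ α`: no normal space of weight below the dominating number, but a
compact Hausdorff space of weight at most the continuum

Let `ω ≤ α < ω₁`.  No family of at most `κ` normal Hausdorff spaces with `trInd ≤ α` and weight at
most `κ`, where `κ` is less than the dominating number `𝔡`, contains copies of all compact
metrizable spaces with `trInd ≤ α`.  There is a compact Hausdorff space with `trInd ≤ α` and weight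
at most the continuum which contains a copy of each of them.
-/

set_option autoImplicit false

open Set Topology TopologicalSpace Filter
open Pool.Agent.Results.MP_00e098_gt.NoUniversalTrInd

universe u

namespace Pool.Agent.Results.MP_00e098_gt.WeightBelowD

/-- The dominating number `𝔡`: the least cardinality of a set `F` of functions `ℕ → ℕ` such that
every function `ℕ → ℕ` is eventually bounded by some member of `F`. -/
noncomputable def dominatingNumber : Cardinal.{0} :=
  sInf {κ | ∃ F : Set (ℕ → ℕ), (∀ g : ℕ → ℕ, ∃ f ∈ F, ∀ᶠ n in atTop, g n ≤ f n) ∧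
    Cardinal.mk F = κ}

/-- The weight of `Z` is at most `κ`: there is a base of the topology with at most `κ` members. -/
def WeightLE (κ : Cardinal.{0}) (Z : Type u) [TopologicalSpace Z] : Prop :=
  ∃ B : Set (Set Z), IsTopologicalBasis B ∧ Cardinal.mk B ≤ Cardinal.lift.{u} κ

theorem exists_indexed {Z : Type u} [TopologicalSpace Z] {κ : Cardinal.{0}} (h : WeightLE κ Z)
    {K : Type} (hK : κ ≤ Cardinal.mk K) :
    ∃ B : K → Set Z, IsTopologicalBasis (range B) := by
  classical
  obtain ⟨B, hB, hBκ⟩ := h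
  have h1 : Cardinal.lift.{0} (Cardinal.mk B) ≤ Cardinal.lift.{u} (Cardinal.mk K) := by
    rw [Cardinal.lift_uzero]
    exact hBκ.trans (Cardinal.lift_le.2 hK)
  obtain ⟨f⟩ := Cardinal.lift_mk_le'.1 h1
  refine ⟨fun k => if h : ∃ b : B, f b = k then h.choose.1 else ∅, ?_⟩
  refine isTopologicalBasis_of_isOpen_of_nhds ?_ ?_
  · rintro _ ⟨k, rfl⟩
    by_cases h : ∃ b : B, f b = k
    · simp only [dif_pos h]
      exact hB.isOpen h.choose.2
    · simp only [dif_neg h]
      exact isOpen_empty
  · intro a U haU hU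
    obtain ⟨V, hV, haV, hVU⟩ := hB.exists_subset_of_mem_open haU hU
    have h : ∃ b : B, f b = f ⟨V, hV⟩ := ⟨_, rfl⟩
    have h2 : h.choose = ⟨V, hV⟩ := f.injective h.choose_spec
    refine ⟨V, ⟨f ⟨V, hV⟩, ?_⟩, haV, hVU⟩
    simp only [dif_pos h]
    exact congrArg Subtype.val h2

theorem result (α : Ordinal.{0}) (hω : Ordinal.omega0 ≤ α) (hω₁ : α < Ordinal.omega 1) :
    -- no family of at most `κ < 𝔡` normal Hausdorff spaces of weight at most `κ` is universal
    (∀ κ : Cardinal.{0}, κ < dominatingNumber →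
      ∀ I : Type, Cardinal.mk I ≤ κ → ∀ (Z : I → Type u) [∀ i, TopologicalSpace (Z i)],
        (∀ i, T2Space (Z i) ∧ NormalSpace (Z i) ∧ WeightLE κ (Z i) ∧ TrIndLE α (Z i)) →
        ∃ (X : Type) (_ : TopologicalSpace X), CompactSpace X ∧ MetrizableSpace X ∧
          TrIndLE α X ∧ ∀ i, ∀ e : X → Z i, Continuous e → ¬ Function.Injective e) ∧
    -- a compact Hausdorff space of weight at most the continuum is
    (∃ (Y : Type) (_ : TopologicalSpace Y), CompactSpace Y ∧ T2Space Y ∧
      WeightLE Cardinal.continuum Y ∧ TrIndLE α Y ∧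
      ∀ (X : Type) [TopologicalSpace X], CompactSpace X → MetrizableSpace X → TrIndLE α X →
        ∃ e : X → Y, IsEmbedding e) ∧
    Cardinal.aleph0 < dominatingNumber ∧ dominatingNumber ≤ Cardinal.continuum := by
  have hω1 : Cardinal.aleph0 < dominatingNumber := Pool.Agent.Y739.UT.aleph0_lt_dominatingNumber
  refine ⟨?_, ?_, hω1, ?_⟩
  · intro κ hκ I hI Z _ hZ
    have _ : ∀ i, T2Space (Z i) := fun i => (hZ i).1
    have _ : ∀ i, NormalSpace (Z i) := fun i => (hZ i).2.1
    have hdecomp : Ordinal.omega0 * (α / Ordinal.omega0) + α % Ordinal.omega0 = α :=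
      Ordinal.div_add_mod α Ordinal.omega0
    obtain ⟨n, hn⟩ := Ordinal.lt_omega0.1 (Ordinal.mod_lt α Ordinal.omega0_ne_zero)
    have hq : 0 < α / Ordinal.omega0 := (Ordinal.div_pos Ordinal.omega0_ne_zero).2 hω
    have hl : Order.IsSuccLimit (Ordinal.omega0 * (α / Ordinal.omega0)) :=
      Ordinal.isSuccLimit_mul_left Ordinal.isSuccLimit_omega0 hq
    have hl1 : Ordinal.omega0 * (α / Ordinal.omega0) < Ordinal.omega 1 :=
      (Ordinal.mul_div_le α Ordinal.omega0).trans_lt hω₁
    rw [hn] at hdecomp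
    let K : Type := (max κ Cardinal.aleph0).out
    have hKc : Cardinal.mk K = max κ Cardinal.aleph0 := Cardinal.mk_out _
    have hKi : Infinite K := by
      rw [Cardinal.infinite_iff, hKc]
      exact le_max_right _ _
    have hKd : Cardinal.mk K < dominatingNumber := by
      rw [hKc]
      exact max_lt hκ hω1
    choose B hB using fun i => exists_indexed (hZ i).2.2.1 (K := K) (by
      rw [hKc]; exact le_max_left _ _)
    obtain ⟨X, hX, hc, hD, he⟩ := Pool.Agent.Y739.UT.main_family hl hl1 n hKd (I := I)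
      (hI.trans (by rw [hKc]; exact le_max_left _ _)) Z B hB (fun i => by
        have h := trIndLE_iff_dle.1 (hZ i).2.2.2
        rwa [hdecomp])
    refine ⟨X, inferInstance, hc, inferInstance, ?_, he⟩
    rw [trIndLE_iff_dle, ← hdecomp]
    exact hD
  · refine ⟨Pool.Agent.Y739.UT.UU α, inferInstance, inferInstance, inferInstance, ?_, ?_, ?_⟩
    · obtain ⟨B, hB, hBc⟩ := Pool.Agent.Y739.UT.exists_base (Y := Pool.Agent.Y739.UT.UU α)
        Cardinal.aleph0_le_continuum (Pool.Agent.Y739.UT.mk_UU α)
      exact ⟨B, hB, by rwa [Cardinal.lift_uzero]⟩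
    · exact trIndLE_iff_dle.2 (Pool.Agent.Y739.UT.dle_UU α)
    · intro X _ _ _ hX
      exact Pool.Agent.Y739.UT.exists_embedding_UU (trIndLE_iff_dle.1 hX)
  · have h1 : dominatingNumber ≤ Cardinal.mk (univ : Set (ℕ → ℕ)) :=
      csInf_le' ⟨univ, fun g => ⟨g, mem_univ _, Eventually.of_forall fun _ => le_rfl⟩, rfl⟩
    refine h1.trans (le_of_eq ?_)
    rw [Cardinal.mk_univ, ← Cardinal.power_def, Cardinal.mk_nat, Cardinal.aleph0_power_aleph0]

end Pool.Agent.Results.MP_00e098_gt.WeightBelowD
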